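import Pool.Agent.Lib.MP_4e5fcd_ag.DW.Main

/-!
# The motivic monodromy conjecture for complete intersections

The definitions of the statement are in `Pool/Agent/Lib/MP_4e5fcd_ag/Defs.lean`,
`Pool/Agent/Lib/MP_4e5fcd_ag/LF/Defs.lean`, `Pool/Agent/Lib/MP_4e5fcd_ag/WH/Defs.lean`,
`Pool/Agent/Lib/MP_4e5fcd_ag/SW/Defs.lean`, `Pool/Agent/Lib/MP_4e5fcd_ag/HC/Defs.lean` (`NS`) and
`Pool/Agent/Lib/MP_4e5fcd_ag/DW/Defs.lean`.
-/

open MvPolynomial MotMono MotMono.WH MotMono.HC

namespace Pool.Agent.Results.MP_4e5fcd_ag.CompleteIntersections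

/-- The conclusion of Q1 for the ideal `I` and `s₀`: if `L^(-s₀)` is a pole of the motivic zeta
function of `I` at the origin, then in every ball around the origin there is a point `p` of `V(I)` and a
point `y`, not on the zero section, of the normal cone over `p`, such that `exp (2πi s₀)` is a zero or a
pole of the monodromy zeta function at `y`. -/
def Q1At {N : ℕ} (χ : K0 →+* ℤ) (I : Ideal (MvPolynomial (Fin N) ℂ)) (s₀ : ℚ) : Prop :=
  IsPole (Zmot I) s₀ → ∀ ε : ℝ, 0 < ε →
    ∃ p : Fin N → ℂ, ‖p‖ < ε ∧ (∀ g ∈ I, eval p g = 0) ∧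
      ∃ y : ConePoint I p, y.Nonzero ∧
        ∃ Z, IsZeta (fun m => χ (cls (contactArcs I p y m))) Z ∧
          ZeroOrPole Z (Complex.exp (2 * Real.pi * Complex.I * s₀))

/-- Let `f j` be polynomials of weighted order `d j > 0` for the weights `w i > 0`, with initial forms
`F j = ini w d f j`, let `I` be the ideal generated by them, and assume that for every `e` the gradients of
the `F j` with `d j ≤ e` are linearly independent at each of their common zeros `c ≠ 0`.

Let `s₀` be such that, if `s₀ = -(q + e n) / e` is not an integer, where `e = d j₀` is one of the degrees,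
`n ≤ N - 2` is the number of the degrees `d j < e` and `q` is the sum of the weights minus the sum of the
degrees `d j < e`, then one of the following holds:

* all weights are `1`, or every weight is a proper divisor of every degree `d j ≤ e`;
* one of the fibres `X = {F j = 0 (d j < e), F j = y j (d j = e)}`, `y ≠ 0`, satisfies
  `∑_{m = 1}^{e} exp (-2πi m s₀) χ (X_m) ≠ 0`, where `X_m = fibre w d F e y m` is the set of the points `x`
  of `X` with `x i = 0` unless `e` divides `m w i` (the fixed points of the `m`-th power of the monodromy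
  `x ↦ (exp (2πi w_i / e) x_i)`).

Then the conclusion of Q1 holds for `I` and `s₀`.

In particular it holds for `I` and all `s₀` if every weight is a proper divisor of every degree, or if all
weights are `1`. (Weights `1`: the `F j` are homogeneous and those with `d j ≤ e` define a nonsingular
complete intersection in `P^(N-1)`. All `d j = L`, `w i = L / m i`: the Brieskorn-Hamm systems
`F j = ∑_i a j i x_i ^ (m i)`, `m i ≥ 2`, all maximal minors of `a` different from `0`, are of this
kind.) -/
theorem result :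
    ∀ χ : K0 →+* ℤ, IsEulerCharW χ →
      ∀ (N r : ℕ) (w : Fin N → ℕ) (d : Fin r → ℕ) (f : Fin r → MvPolynomial (Fin N) ℂ),
        0 < r → (∀ i, 0 < w i) → (∀ j, 0 < d j) →
        (∀ j m, coeff m (f j) ≠ 0 → d j ≤ ∑ i, m i * w i) → (∀ j, ini w d f j ≠ 0) →
        (∀ c, c ≠ 0 → ∀ e, (∀ j, d j ≤ e → eval c (ini w d f j) = 0) →
          LinearIndependent ℂ fun j : {j // d j ≤ e} => grad (ini w d f j) c) →
        ∀ s₀ : ℚ,
          (∀ j₀, (Finset.univ.filter fun j => d j < d j₀).card + 2 ≤ N →
            s₀ = -((∑ i, (w i : ℚ) - ∑ j with d j < d j₀, (d j : ℚ)) +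
              d j₀ * (Finset.univ.filter fun j => d j < d j₀).card) / d j₀ →
            (∀ z : ℤ, s₀ ≠ z) →
              ((∀ i, w i = 1) ∨ ∀ j, d j ≤ d j₀ → ∀ i, w i ∣ d j ∧ w i < d j) ∨
              ∃ y : Fin r → ℂ, (∃ j, d j = d j₀ ∧ y j ≠ 0) ∧
                ∑ m ∈ Finset.Icc 1 (d j₀), Complex.exp (-(2 * Real.pi * Complex.I * s₀ * m)) *
                  (χ (cls (fibre w d (ini w d f) (d j₀) y m)) : ℂ) ≠ 0) →
          Q1At χ (Ideal.span (Set.range f)) s₀ := by
  intro χ hχ N r w d f hr hw hd ho hi hs s₀ hE hpole ε hε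
  refine DW.dw_main hχ w d f hr hw hd ho hi hs s₀ ?_ hpole ε hε
  by_cases h1 : ∀ i, w i = 1
  · exact Or.inl h1
  refine Or.inr fun j₀ hn heq hz => ?_
  have h2 : s₀ = -((∑ i, (w i : ℚ) - ∑ j with d j < d j₀, (d j : ℚ)) +
      d j₀ * (Finset.univ.filter fun j => d j < d j₀).card) / d j₀ := by
    rw [heq]
    unfold qn nn
    push_cast
    rfl
  rcases hE j₀ hn h2 hz with (h | h) | h
  · exact absurd h h1
  · exact Or.inl h
  · exact Or.inr h

end Pool.Agent.Results.MP_4e5fcd_ag.CompleteIntersections
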