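import Pool.Agent.Lib.MP_4e5fcd_ag.Ic.Main

/-!
# The motivic monodromy conjecture for ideals with equivariant integral closure

The definitions of the statement are in `Pool/Agent/Lib/MP_4e5fcd_ag/Defs.lean`,
`Pool/Agent/Lib/MP_4e5fcd_ag/Cl/Defs.lean` and `Pool/Agent/Lib/MP_4e5fcd_ag/Ic/Defs.lean`.
-/

open MvPolynomial MotMono

namespace Pool.Agent.Results.MP_4e5fcd_ag.EquivariantIdeals

/-- Let `x_1, …, x_s` be generic, symmetric or skew-symmetric matrices of variables (`σ a` is the
shape of `x_a`) and let `J` be an ideal of the polynomial ring in all their independent entries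
which is stable under all substitutions `x_a ↦ g_a x_a h_a` (generic matrices),
`x_a ↦ g_a x_a g_aᵀ` (symmetric and skew-symmetric matrices) with invertible matrices `g_a`, `h_a`.
Let `I` be an ideal with the same integral closure near the origin: `h I ⊆ J` and `h J` is integral
over `I` for some polynomial `h` with `h (0) ≠ 0`.
If `L^(-s₀)` is a pole of the motivic zeta function of `I`, then in every ball around the origin
there is a point `p` of `V(I)` and a point `y`, not on the zero section, of the normal cone over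
`p`, such that `exp (2πi s₀)` is a zero or a pole of the monodromy zeta function at `y`. -/
theorem result {s N : ℕ} (σ : Fin s → Shp) (hσ : ∀ a, (σ a).Ok)
    (e : (Σ a, (σ a).Idx) ≃ Fin N) (I J : Ideal (MvPolynomial (Fin N) ℂ)) (hJ : ShStable σ e J)
    (hIJ : SameClosure I J) (s₀ : ℚ) (hpole : IsPole (Zmot I) s₀) (ε : ℝ) (hε : 0 < ε) :
    ∃ p : Fin N → ℂ, ‖p‖ < ε ∧ (∀ f ∈ I, eval p f = 0) ∧
      ∃ y : ConePoint I p, y.Nonzero ∧
        ∀ χ : K0 →+* ℤ, IsEulerChar χ →
          ∃ Z, IsZeta (fun d => χ (cls (contactArcs I p y d))) Z ∧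
            ZeroOrPole Z (Complex.exp (2 * Real.pi * Complex.I * s₀)) :=
  ic_main σ hσ e I J hJ hIJ s₀ hpole ε hε

end Pool.Agent.Results.MP_4e5fcd_ag.EquivariantIdeals
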