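import Pool.Agent.Lib.MP_4e5fcd_ag.NC.Pull

/-!
# The motivic monodromy conjecture for nondegenerate curves

The definitions of the statement are in `Pool/Agent/Lib/MP_4e5fcd_ag/Defs.lean` (`K0`, `cls`, `Zmot`,
`IsPole`, `ConePoint`, `contactArcs`), `Pool/Agent/Lib/MP_4e5fcd_ag/LF/Defs.lean` (`IsEulerCharF`) and
`Pool/Agent/Lib/MP_4e5fcd_ag/CN/Defs.lean` (`jacDet`, `LocPull`).
-/

open MvPolynomial MotMono

namespace Pool.Agent.Results.MP_4e5fcd_ag.NondegenerateCurves

/-- Let `f j` be `r = N - 1 ≥ 1` polynomials in `N` variables which vanish at the origin and are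
nondegenerate for their common Newton polyhedron: for all positive weights `w`, if `e` is the least
weight of a monomial of one of the `f j`, then the parts of weight `e` of the `f j` have linearly
independent gradients at all their common zeros in the torus `(ℂ^*)^N`. Let `I` be an ideal in `M`
variables which near the origin is generated by the `f j (u_1, …, u_N)`, where `u_1, …, u_N` vanish
at the origin and belong to a system of `M` polynomials with non-zero Jacobian determinant at the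
origin (`M ≥ N`). If `L^(-s₀)` is a pole of the motivic zeta function of `I` at the origin, then in
every ball around the origin there is a point `p` of `V(I)` and a point `y`, not on the zero section,
of the normal cone over `p`, such that `exp (2πi s₀)` is a zero or a pole of the monodromy zeta
function at `y`. -/
theorem result (χ : K0 →+* ℤ) (hχ : IsEulerCharF χ) (N r : ℕ) (hr : r + 1 = N) (hr0 : 0 < r)
    (f : Fin r → MvPolynomial (Fin N) ℂ) (h0 : ∀ j, eval 0 (f j) = 0)
    (hf : ∀ (w : Fin N → ℕ) (e : ℕ), (∀ i, 0 < w i) →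
      (∀ j m, coeff m (f j) ≠ 0 → e ≤ ∑ i, m i * w i) →
      (∃ j m, coeff m (f j) ≠ 0 ∧ ∑ i, m i * w i = e) →
      ∀ z : Fin N → ℂ, (∀ i, z i ≠ 0) →
        (∀ j, eval z (weightedHomogeneousComponent w e (f j)) = 0) →
        LinearIndependent ℂ fun (j : Fin r) (i : Fin N) =>
          eval z (pderiv i (weightedHomogeneousComponent w e (f j))))
    (M : ℕ) (I : Ideal (MvPolynomial (Fin M) ℂ)) (hI : LocPull I 0 (Ideal.span (Set.range f)))
    (s₀ : ℚ) (hpole : IsPole (Zmot I) s₀) (ε : ℝ) (hε : 0 < ε) :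
    ∃ p : Fin M → ℂ, ‖p‖ < ε ∧ (∀ g ∈ I, eval p g = 0) ∧
      ∃ y : ConePoint I p, y.Nonzero ∧
        ∃ Z, IsZeta (fun m => χ (cls (contactArcs I p y m))) Z ∧
          ZeroOrPole Z (Complex.exp (2 * Real.pi * Complex.I * s₀)) := by
  refine NC.main_pull hχ hr hr0 h0 ?_ I hI s₀ hpole ε hε
  intro w e hw hge hex z hz hzf
  refine hf w e hw ?_ ?_ z hz hzf
  · intro j m hm
    exact hge m (Finset.mem_biUnion.2 ⟨j, Finset.mem_univ j, mem_support_iff.2 hm⟩)
  · obtain ⟨m, hm, hme⟩ := hex
    obtain ⟨j, _, hj⟩ := Finset.mem_biUnion.1 hm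
    exact ⟨j, m, mem_support_iff.1 hj, hme⟩

/-- The case of the ideal `(f_1, …, f_(N-1))` itself. -/
theorem given_coordinates (χ : K0 →+* ℤ) (hχ : IsEulerCharF χ) (N r : ℕ) (hr : r + 1 = N)
    (hr0 : 0 < r) (f : Fin r → MvPolynomial (Fin N) ℂ) (h0 : ∀ j, eval 0 (f j) = 0)
    (hf : ∀ (w : Fin N → ℕ) (e : ℕ), (∀ i, 0 < w i) →
      (∀ j m, coeff m (f j) ≠ 0 → e ≤ ∑ i, m i * w i) →
      (∃ j m, coeff m (f j) ≠ 0 ∧ ∑ i, m i * w i = e) →
      ∀ z : Fin N → ℂ, (∀ i, z i ≠ 0) →
        (∀ j, eval z (weightedHomogeneousComponent w e (f j)) = 0) →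
        LinearIndependent ℂ fun (j : Fin r) (i : Fin N) =>
          eval z (pderiv i (weightedHomogeneousComponent w e (f j))))
    (s₀ : ℚ) (hpole : IsPole (Zmot (Ideal.span (Set.range f))) s₀) (ε : ℝ) (hε : 0 < ε) :
    ∃ p : Fin N → ℂ, ‖p‖ < ε ∧ (∀ g ∈ Ideal.span (Set.range f), eval p g = 0) ∧
      ∃ y : ConePoint (Ideal.span (Set.range f)) p, y.Nonzero ∧
        ∃ Z, IsZeta (fun m => χ (cls (contactArcs (Ideal.span (Set.range f)) p y m))) Z ∧
          ZeroOrPole Z (Complex.exp (2 * Real.pi * Complex.I * s₀)) := by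
  refine result χ hχ N r hr hr0 f h0 hf N _ ?_ s₀ hpole ε hε
  have hjac : jacDet (fun i : Fin N => (X i : MvPolynomial (Fin N) ℂ)) = 1 := by
    have h1 : (Matrix.of fun i j : Fin N => pderiv j (X i : MvPolynomial (Fin N) ℂ)) = 1 := by
      ext1 i j
      rw [Matrix.of_apply, pderiv_X, Matrix.one_apply, Pi.single_apply]
    rw [jacDet, h1, Matrix.det_one]
  refine ⟨fun i => X i, id, 1, Function.injective_id, ?_, ?_, fun i => ?_, fun g hg => ?_,
    fun g hg => ?_⟩
  · rw [map_one]
    exact one_ne_zero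
  · rw [hjac, map_one]
    exact one_ne_zero
  · rw [eval_X]
    rfl
  · rw [one_mul]
    show aeval X g ∈ _
    rw [aeval_X_left_apply]
    exact hg
  · rw [one_mul]
    refine Ideal.subset_span ⟨g, hg, ?_⟩
    show g = aeval X g
    rw [aeval_X_left_apply]

end Pool.Agent.Results.MP_4e5fcd_ag.NondegenerateCurves
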