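import Pool.Agent.Lib.MP_4e5fcd_ag.NW.D1

/-!
# The motivic monodromy conjecture for ideals with monomial integral closure, for ideals generated by
products of linear forms, by forms of one degree in three variables, and for ideals obtained from
these

The definitions of the statement are in `Pool/Agent/Lib/MP_4e5fcd_ag/Defs.lean`,
`Pool/Agent/Lib/MP_4e5fcd_ag/LF/Defs.lean`, `Pool/Agent/Lib/MP_4e5fcd_ag/CN/Defs.lean`,
`Pool/Agent/Lib/MP_4e5fcd_ag/TV/YDefs.lean`, `Pool/Agent/Lib/MP_4e5fcd_ag/HY/Defs.lean`,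
`Pool/Agent/Lib/MP_4e5fcd_ag/HZ/Defs.lean` and `Pool/Agent/Lib/MP_4e5fcd_ag/NW/Defs.lean`.
-/

open MvPolynomial MotMono

namespace Pool.Agent.Results.MP_4e5fcd_ag.TameIdeals

/-- Let `I` be an ideal of `ℂ[x₁,…,x_N]` of the class `T'(s₀)` (`ClassUg χ s₀`). If `L^(-s₀)` is a
pole of the motivic zeta function of `I` at the origin, then in every ball around the origin there is
a point `p` of `V(I)` and a point `y`, not on the zero section, of the normal cone over `p`, such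
that `exp (2πi s₀)` is a zero or a pole of the monodromy zeta function at `y`. -/
theorem result {N : ℕ} (χ : K0 →+* ℤ) (hχ : IsEulerCharF χ) (s₀ : ℚ)
    (I : Ideal (MvPolynomial (Fin N) ℂ)) (hI : ClassUg χ s₀ I)
    (hpole : IsPole (Zmot I) s₀) (ε : ℝ) (hε : 0 < ε) :
    ∃ p : Fin N → ℂ, ‖p‖ < ε ∧ (∀ f ∈ I, eval p f = 0) ∧
      ∃ y : ConePoint I p, y.Nonzero ∧
        ∃ Z, IsZeta (fun d => χ (cls (contactArcs I p y d))) Z ∧
          ZeroOrPole Z (Complex.exp (2 * Real.pi * Complex.I * s₀)) :=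
  NW.main χ hχ s₀ I hI hpole ε hε

/-- The case of an ideal whose integral closure near the origin is monomial. -/
theorem monomial_integral_closure {N : ℕ} (χ : K0 →+* ℤ) (hχ : IsEulerCharF χ) (s₀ : ℚ)
    (I : Ideal (MvPolynomial (Fin N) ℂ)) (hI : MonClosure I)
    (hpole : IsPole (Zmot I) s₀) (ε : ℝ) (hε : 0 < ε) :
    ∃ p : Fin N → ℂ, ‖p‖ < ε ∧ (∀ f ∈ I, eval p f = 0) ∧
      ∃ y : ConePoint I p, y.Nonzero ∧
        ∃ Z, IsZeta (fun d => χ (cls (contactArcs I p y d))) Z ∧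
          ZeroOrPole Z (Complex.exp (2 * Real.pi * Complex.I * s₀)) :=
  result χ hχ s₀ I (.base s₀ _ (.newton s₀ I hI)) hpole ε hε

/-- The case of an ideal generated by products of linear forms. -/
theorem products_of_linear_forms {N : ℕ} (χ : K0 →+* ℤ) (hχ : IsEulerCharF χ) (s₀ : ℚ)
    (P : Set (MvPolynomial (Fin N) ℂ)) (hP : ∀ f ∈ P, IsProdLin f) (h0 : ∃ f ∈ P, f ≠ 0)
    (h1 : ∀ f ∈ P, eval 0 f = 0) (hpole : IsPole (Zmot (Ideal.span P)) s₀) (ε : ℝ) (hε : 0 < ε) :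
    ∃ p : Fin N → ℂ, ‖p‖ < ε ∧ (∀ f ∈ Ideal.span P, eval p f = 0) ∧
      ∃ y : ConePoint (Ideal.span P) p, y.Nonzero ∧
        ∃ Z, IsZeta (fun d => χ (cls (contactArcs (Ideal.span P) p y d))) Z ∧
          ZeroOrPole Z (Complex.exp (2 * Real.pi * Complex.I * s₀)) :=
  result χ hχ s₀ _ (.base s₀ _ (.lin s₀ P hP h0 h1)) hpole ε hε

/-- The case of an ideal generated by forms of one degree in three variables, three of which are
algebraically independent. -/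
theorem three_variables (χ : K0 →+* ℤ) (hχ : IsEulerCharF χ) (s₀ : ℚ)
    (F : Set (MvPolynomial (Fin 3) ℂ)) (d : ℕ) (hd : 0 < d) (hF : ∀ f ∈ F, f.IsHomogeneous d)
    (g : Fin 3 → MvPolynomial (Fin 3) ℂ) (hgF : ∀ i, g i ∈ F) (hg : AlgebraicIndependent ℂ g)
    (hpole : IsPole (Zmot (Ideal.span F)) s₀) (ε : ℝ) (hε : 0 < ε) :
    ∃ p : Fin 3 → ℂ, ‖p‖ < ε ∧ (∀ f ∈ Ideal.span F, eval p f = 0) ∧
      ∃ y : ConePoint (Ideal.span F) p, y.Nonzero ∧
        ∃ Z, IsZeta (fun d => χ (cls (contactArcs (Ideal.span F) p y d))) Z ∧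
          ZeroOrPole Z (Complex.exp (2 * Real.pi * Complex.I * s₀)) :=
  result χ hχ s₀ _ (.base s₀ _ (.three s₀ F d hd hF ⟨g 0, hgF 0, hg.ne_zero 0⟩
    fun _ => Or.inr (Or.inr ⟨g, hgF, hg⟩))) hpole ε hε

/-- The case of an ideal generated by forms of one degree in `N + 1` variables, `N + 1` of which are
algebraically independent, whose scheme in the projective space `P^N` is, at each of its points and in
étale coordinates, smooth (the ideal is generated by `c` of the coordinates), or given by an ideal with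
monomial integral closure (for example fat points), or by an ideal in two variables. -/
theorem forms_of_one_degree {N : ℕ} (χ : K0 →+* ℤ) (hχ : IsEulerCharF χ) (s₀ : ℚ)
    (F : Set (MvPolynomial (Fin (N + 1)) ℂ)) (d : ℕ) (hd : 0 < d) (hF : ∀ f ∈ F, f.IsHomogeneous d)
    (g : Fin (N + 1) → MvPolynomial (Fin (N + 1)) ℂ) (hgF : ∀ i, g i ∈ F)
    (hg : AlgebraicIndependent ℂ g)
    (hloc : ∀ (i : Fin (N + 1)) (b : Fin N → ℂ), (∀ f ∈ F, eval b (dh i f) = 0) →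
      (∃ c : ℕ, 0 < c ∧ LocPull (germ (Ideal.span (dh i '' F)) b) 0
        (Ideal.span (Set.range (X : Fin c → MvPolynomial (Fin c) ℂ)))) ∨
      (∃ (k : ℕ) (G : Ideal (MvPolynomial (Fin k) ℂ)), MonClosure G ∧
        LocPull (germ (Ideal.span (dh i '' F)) b) 0 G) ∨
      ∃ G : Ideal (MvPolynomial (Fin 2) ℂ), G ≠ ⊥ ∧ (∀ f ∈ G, eval 0 f = 0) ∧
        LocPull (germ (Ideal.span (dh i '' F)) b) 0 G)
    (hpole : IsPole (Zmot (Ideal.span F)) s₀) (ε : ℝ) (hε : 0 < ε) :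
    ∃ p : Fin (N + 1) → ℂ, ‖p‖ < ε ∧ (∀ f ∈ Ideal.span F, eval p f = 0) ∧
      ∃ y : ConePoint (Ideal.span F) p, y.Nonzero ∧
        ∃ Z, IsZeta (fun d => χ (cls (contactArcs (Ideal.span F) p y d))) Z ∧
          ZeroOrPole Z (Complex.exp (2 * Real.pi * Complex.I * s₀)) := by
  classical
  refine result χ hχ s₀ _ (.base s₀ _ (.cone s₀ F d hd hF ⟨g 0, hgF 0, hg.ne_zero 0⟩
    (fun i b hb => ?_) fun _ => Or.inr (Or.inr (Or.inr (Or.inl ⟨g, hgF, hg⟩))))) hpole ε hε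
  rcases hloc i b hb with ⟨c, hc, h⟩ | ⟨k, G, hG, h⟩ | ⟨G, hG, h0, h⟩
  · refine .pull s₀ _ _ h (.lin s₀ _ ?_ ⟨X ⟨0, hc⟩, ⟨_, rfl⟩, X_ne_zero _⟩ ?_)
    · rintro _ ⟨j, rfl⟩
      refine ⟨1, 1, fun _ i => if i = j then 1 else 0, by simp, ?_⟩
      simp
    · rintro _ ⟨j, rfl⟩
      simp
  · exact .pull s₀ _ _ h (.newton s₀ G hG)
  · exact .pull s₀ _ _ h (.two s₀ G hG h0)

/-- The case of a hypersurface `∑ j, y_j f_j (x₁, x₂)`, `f_j` arbitrary polynomials in two variables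
which vanish at the origin, not all zero. -/
theorem linear_combinations (χ : K0 →+* ℤ) (hχ : IsEulerCharF χ) (s₀ : ℚ) {r : ℕ}
    (f : Fin r → MvPolynomial (Fin 2) ℂ) (hf : ∃ j, f j ≠ 0) (h0 : ∀ j, eval 0 (f j) = 0)
    (hpole : IsPole (Zmot (linGen f 1)) s₀) (ε : ℝ) (hε : 0 < ε) :
    ∃ p : Fin (2 + 1 * r) → ℂ, ‖p‖ < ε ∧ (∀ f' ∈ linGen f 1, eval p f' = 0) ∧
      ∃ y : ConePoint (linGen f 1) p, y.Nonzero ∧
        ∃ Z, IsZeta (fun d => χ (cls (contactArcs (linGen f 1) p y d))) Z ∧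
          ZeroOrPole Z (Complex.exp (2 * Real.pi * Complex.I * s₀)) := by
  refine result χ hχ s₀ _ (.gen s₀ f 1 one_pos (.base s₀ _ (.two s₀ _ ?_ ?_))) hpole ε hε
  · obtain ⟨j, hj⟩ := hf
    intro h
    have hm : f j ∈ Ideal.span (Set.range f) := Ideal.subset_span ⟨j, rfl⟩
    rw [h, Ideal.mem_bot] at hm
    exact hj hm
  · intro g hg
    have h1 : Ideal.span (Set.range f) ≤ RingHom.ker (eval (0 : Fin 2 → ℂ)) := by
      rw [Ideal.span_le]
      rintro _ ⟨j, rfl⟩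
      exact h0 j
    exact h1 hg

end Pool.Agent.Results.MP_4e5fcd_ag.TameIdeals
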